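import Mathlib

set_option autoImplicit false

namespace Pool.Agent.Results.MP_f00063_lc.No

open Filter

/-- `A` is in the sum iff for `U`-most `m`, for `V`-most `n`, `m + n ∈ A` -/
def add (U V : Ultrafilter ℕ+) : Ultrafilter ℕ+ := U.bind fun m => V.map fun n => m + n

/-- the image of `U` under `n ↦ a * n` -/
def smul (a : ℕ+) (U : Ultrafilter ℕ+) : Ultrafilter ℕ+ := U.map fun n => a * n

attribute [local instance] Ultrafilter.add Ultrafilter.addSemigroup

lemma add_eq (U V : Ultrafilter ℕ+) : add U V = U + V :=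
  Ultrafilter.coe_inj.1 (Filter.ext' fun p => by
    rw [Ultrafilter.eventually_add]; exact Filter.mem_bind')

lemma smul_add (a : ℕ+) (U V : Ultrafilter ℕ+) : smul a (U + V) = smul a U + smul a V :=
  Ultrafilter.coe_inj.1 (Filter.ext' fun p => by
    simp only [smul, Ultrafilter.eventually_add, Ultrafilter.coe_map, eventually_map, mul_add])

theorem result : ∃ (U : Ultrafilter ℕ+) (a b b' c : ℕ+), b ≠ b' ∧
    add (add (smul a U) (smul b U)) (smul c U) = add (add (smul a U) (smul b' U)) (smul c U) := by
  obtain ⟨U, hU⟩ := exists_idempotent_of_compact_t2_of_continuous_add_left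
    (M := Ultrafilter ℕ+) Ultrafilter.continuous_add_left
  refine ⟨U, 1, 1, 2, 2, by decide, ?_⟩
  simp only [add_eq]
  rw [add_assoc (smul 1 U) (smul 2 U), ← smul_add, ← smul_add, hU]

end Pool.Agent.Results.MP_f00063_lc.No
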